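import Pool.Agent.Q237.RC.Tools

/-!
Job RC-LOWP (project RC of helper120): the longest run is not short.
-/

set_option autoImplicit false

namespace Pool.Agent.Q237.RC

open Finset MeasureTheory Filter Pool.Agent.Q120.RC Pool.Agent.Q120.ME
open scoped Topology

/-- marginals -/
theorem bern_marg (p : ℕ → ℝ) (f : Finset ℕ → ℝ) {y x : ℕ} (hyx : y ≤ x)
    (hf : ∀ (T : Finset ℕ) (n : ℕ), y ≤ n → f (insert n T) = f T) :
    ∑ T ∈ (range x).powerset, bern p (range x) T * f T =
      ∑ T ∈ (range y).powerset, bern p (range y) T * f T := by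
  induction x, hyx using Nat.le_induction with
  | base => rfl
  | succ x hyx ih =>
    rw [sum_succ, ← ih]
    refine Finset.sum_congr rfl fun T hT => ?_
    rw [bern_succ p (mem_powerset.1 hT), bern_succ_insert, hf T x hyx]
    ring

/-- all windows are hit -/
def AllHit (h g w : ℕ) (T : Finset ℕ) : Prop :=
  ∀ i < w, ∃ j ∈ T, h + i * g ≤ j ∧ j < h + (i + 1) * g

theorem allHit_insert {h g w : ℕ} (T : Finset ℕ) (n : ℕ) (hn : h + w * g ≤ n) :
    AllHit h g w (insert n T) ↔ AllHit h g w T := by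
  have key : ∀ i < w, h + (i + 1) * g ≤ n := fun i hi =>
    (Nat.add_le_add_left (Nat.mul_le_mul_right g hi) h).trans hn
  constructor
  · intro H i hi
    obtain ⟨j, hj, h1, h2⟩ := H i hi
    rcases mem_insert.1 hj with h3 | h3
    · have := key i hi
      omega
    · exact ⟨j, h3, h1, h2⟩
  · intro H i hi
    obtain ⟨j, hj, h1, h2⟩ := H i hi
    exact ⟨j, mem_insert_of_mem hj, h1, h2⟩

open Classical in
/-- the probability that all windows are hit -/
noncomputable def PH (p : ℕ → ℝ) (h g w x : ℕ) : ℝ :=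
  ∑ T ∈ (range x).powerset, bern p (range x) T * (if AllHit h g w T then 1 else 0)

theorem PH_marg (p : ℕ → ℝ) (h g w : ℕ) {x : ℕ} (hx : h + w * g ≤ x) :
    PH p h g w x = PH p h g w (h + w * g) := by
  classical
  unfold PH
  refine bern_marg p _ hx fun T n hn => ?_
  simp only [allHit_insert T n hn]

theorem PH_succ (p : ℕ → ℝ) (h g w : ℕ) : PH p h g (w + 1) (h + (w + 1) * g) =
    PH p h g w (h + w * g) * (1 - ∏ j ∈ Ico (h + w * g) (h + (w + 1) * g), (1 - p j)) := by
  classical
  have hle : h + w * g ≤ h + (w + 1) * g := by nlinarith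
  have h1 : PH p h g w (h + (w + 1) * g) - PH p h g (w + 1) (h + (w + 1) * g) =
      PH p h g w (h + w * g) * ∏ j ∈ Ico (h + w * g) (h + (w + 1) * g), (1 - p j) := by
    unfold PH
    rw [← Finset.sum_sub_distrib]
    have h2 : ∀ T ∈ (range (h + (w + 1) * g)).powerset,
        bern p (range (h + (w + 1) * g)) T * (if AllHit h g w T then 1 else 0) -
        bern p (range (h + (w + 1) * g)) T * (if AllHit h g (w + 1) T then 1 else 0) =
        if T ⊆ range (h + w * g) then
          bern p (range (h + (w + 1) * g)) T * (if AllHit h g w T then 1 else 0) else 0 := by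
      intro T hT
      have hT' := mem_powerset.1 hT
      by_cases hA : AllHit h g w T
      · by_cases hsub : T ⊆ range (h + w * g)
        · have hA' : ¬ AllHit h g (w + 1) T := by
            intro H
            obtain ⟨j, hj, h3, h4⟩ := H w (Nat.lt_succ_self w)
            have := mem_range.1 (hsub hj)
            omega
          rw [if_pos hA, if_neg hA', if_pos hsub]
          ring
        · have hA' : AllHit h g (w + 1) T := by
            intro i hi
            rcases Nat.lt_succ_iff_lt_or_eq.1 hi with h3 | h3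
            · exact hA i h3
            · subst h3
              rw [Finset.not_subset] at hsub
              obtain ⟨j, hj, h4⟩ := hsub
              rw [mem_range, not_lt] at h4
              exact ⟨j, hj, h4, mem_range.1 (hT' hj)⟩
          rw [if_pos hA, if_pos hA', if_neg hsub, sub_self]
      · have hA' : ¬ AllHit h g (w + 1) T := fun H => hA fun i hi => H i (by omega)
        rw [if_neg hA, if_neg hA', mul_zero, sub_self, ite_self]
    rw [Finset.sum_congr rfl h2, ← Finset.sum_filter]
    have h3 : (range (h + (w + 1) * g)).powerset.filter (fun T => T ⊆ range (h + w * g)) =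
        (range (h + w * g)).powerset := by
      ext T
      simp only [mem_filter, mem_powerset]
      exact ⟨fun H => H.2, fun H => ⟨H.trans (range_mono hle), H⟩⟩
    rw [h3, Finset.sum_mul]
    refine Finset.sum_congr rfl fun T hT => ?_
    rw [bern_window p hle (mem_powerset.1 hT)]
    ring
  rw [PH_marg p h g w hle] at h1
  linarith

theorem PH_le {p : ℕ → ℝ} (hp : ∀ n, 0 ≤ p n ∧ p n ≤ 1) (ha : Antitone p) (h g w : ℕ) :
    PH p h g w (h + w * g) ≤ (1 - (1 - p h) ^ g) ^ w := by
  have h0 : 0 ≤ 1 - p h := by linarith [(hp h).2]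
  have h1 : (1 - p h) ^ g ≤ 1 := pow_le_one₀ h0 (by linarith [(hp h).1])
  induction w with
  | zero =>
    rw [pow_zero]
    unfold PH
    calc _ ≤ ∑ T ∈ (range (h + 0 * g)).powerset, bern p (range (h + 0 * g)) T := by
          refine Finset.sum_le_sum fun T _ => ?_
          have := bern_nonneg hp (range (h + 0 * g)) T
          split_ifs <;> linarith
      _ = 1 := bern_sum p _
      _ ≤ 1 := le_rfl
  | succ w ih =>
    rw [PH_succ, pow_succ]
    have h2 : (1 - p h) ^ g ≤ ∏ j ∈ Ico (h + w * g) (h + (w + 1) * g), (1 - p j) := by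
      have h3 : (1 - p h) ^ g = ∏ _j ∈ Ico (h + w * g) (h + (w + 1) * g), (1 - p h) := by
        rw [Finset.prod_const, Nat.card_Ico]
        congr 1
        have : h + (w + 1) * g = h + w * g + g := by ring
        omega
      rw [h3]
      refine Finset.prod_le_prod (fun _ _ => h0) fun j hj => ?_
      have h4 := (mem_Ico.1 hj).1
      have h5 := ha (show h ≤ j from (Nat.le_add_right _ _).trans h4)
      linarith
    have h3 : ∏ j ∈ Ico (h + w * g) (h + (w + 1) * g), (1 - p j) ≤ 1 :=
      Finset.prod_le_one (fun j _ => by linarith [(hp j).2]) fun j _ => by linarith [(hp j).1]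
    refine mul_le_mul ih (by linarith) (by linarith) (pow_nonneg (by linarith) _)

/-! ### asymptotics -/

theorem tendsto_p {κ c : ℝ} {p : ℕ → ℝ} (hκ : 0 < κ) (h : Mod κ c p) :
    Tendsto p atTop (𝓝 0) := by
  have h1 : Tendsto (fun n : ℕ => Real.log n ^ κ) atTop atTop :=
    (tendsto_rpow_atTop hκ).comp tendsto_log_nat
  have h2 := h.lim.div_atTop h1
  refine h2.congr' ?_
  filter_upwards [tendsto_log_nat.eventually_gt_atTop 0] with n hn
  have : Real.log n ^ κ ≠ 0 := (Real.rpow_pos_of_pos hn _).ne'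
  field_simp

theorem tendsto_half : Tendsto (fun n : ℕ => n / 2) atTop atTop := by
  refine tendsto_atTop.2 fun b => ?_
  filter_upwards [eventually_ge_atTop (2 * b)] with n hn
  omega

theorem tendsto_log_half :
    Tendsto (fun n : ℕ => Real.log n / Real.log ((n / 2 : ℕ) : ℝ)) atTop (𝓝 1) := by
  have h1 : Tendsto (fun n : ℕ => 1 + Real.log 3 / Real.log ((n / 2 : ℕ) : ℝ)) atTop (𝓝 (1 + 0)) := by
    refine Tendsto.const_add 1 ?_
    exact (tendsto_log_nat.comp tendsto_half).const_div_atTop (Real.log 3)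
  rw [add_zero] at h1
  refine tendsto_of_tendsto_of_tendsto_of_le_of_le' tendsto_const_nhds h1 ?_ ?_
  · filter_upwards [(tendsto_log_nat.comp tendsto_half).eventually_gt_atTop 0,
      eventually_ge_atTop 4] with n hn hn4
    have hn' : 0 < Real.log ((n / 2 : ℕ) : ℝ) := hn
    rw [le_div_iff₀ hn', one_mul]
    refine Real.log_le_log ?_ ?_
    · exact_mod_cast (by omega : 0 < n / 2)
    · exact_mod_cast Nat.div_le_self n 2
  · filter_upwards [(tendsto_log_nat.comp tendsto_half).eventually_gt_atTop 0,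
      eventually_ge_atTop 4] with n hn hn4
    have hn' : 0 < Real.log ((n / 2 : ℕ) : ℝ) := hn
    have h0 : (0 : ℝ) < ((n / 2 : ℕ) : ℝ) := by exact_mod_cast (by omega : 0 < n / 2)
    rw [div_le_iff₀ hn', add_mul, one_mul, div_mul_cancel₀ _ hn'.ne', ← Real.log_mul h0.ne'
      (by norm_num)]
    refine Real.log_le_log (by exact_mod_cast (by omega : 0 < n)) ?_
    exact_mod_cast (by omega : n ≤ n / 2 * 3)

/-- `p (n / 2) * b0 n / log n → 1` -/
theorem tendsto_pb0_half {κ c : ℝ} {p : ℕ → ℝ} (hc : 0 < c) (h : Mod κ c p) :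
    Tendsto (fun n : ℕ => p (n / 2) * b0 κ c n / Real.log n) atTop (𝓝 1) := by
  have h1 : Tendsto (fun n : ℕ => p (n / 2) * Real.log ((n / 2 : ℕ) : ℝ) ^ κ / c) atTop
      (𝓝 (c / c)) := (h.lim.comp tendsto_half).div_const c
  rw [div_self hc.ne'] at h1
  have h2 : Tendsto (fun n : ℕ => (Real.log n / Real.log ((n / 2 : ℕ) : ℝ)) ^ κ) atTop
      (𝓝 (1 ^ κ)) := tendsto_log_half.rpow_const (Or.inl one_ne_zero)
  rw [Real.one_rpow] at h2
  have h3 := h1.mul h2
  rw [one_mul] at h3
  refine h3.congr' ?_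
  filter_upwards [tendsto_log_nat.eventually_gt_atTop 0,
    (tendsto_log_nat.comp tendsto_half).eventually_gt_atTop 0] with n hn hn'
  have hn'' : 0 < Real.log ((n / 2 : ℕ) : ℝ) := hn'
  have h4 : (Real.log ((n / 2 : ℕ) : ℝ)) ^ κ ≠ 0 := (Real.rpow_pos_of_pos hn'' _).ne'
  unfold b0
  rw [Real.div_rpow hn.le hn''.le, Real.rpow_add hn, Real.rpow_one]
  field_simp

open Classical in
theorem t_LOWP : J_LOWP := by
  intro κ c p hκ hc h ε hε hε1
  have hp : ∀ n, 0 ≤ p n ∧ p n ≤ 1 := fun n => ⟨(h.pos n).le, (h.lt_one n).le⟩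
  refine ⟨ε / 4, by positivity, ?_⟩
  set η : ℝ := ε / 12 with hη
  have hη0 : 0 < η := by positivity
  have e1 : ∀ᶠ n : ℕ in atTop, p (n / 2) < η / 2 :=
    ((tendsto_p hκ h).comp tendsto_half).eventually_lt_const (by positivity)
  have e2 : ∀ᶠ n : ℕ in atTop, p (n / 2) * b0 κ c n / Real.log n ≤ 1 + η :=
    (tendsto_pb0_half hc h).eventually_le_const (by linarith)
  have e3 : ∀ᶠ n : ℕ in atTop, (n : ℝ) ^ (ε / 8) ≥ 32 :=
    ((tendsto_rpow_atTop (by positivity : 0 < ε / 8)).comp
      (tendsto_natCast_atTop_atTop (R := ℝ))).eventually_ge_atTop 32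
  filter_upwards [e1, e2, e3, log_pow_le (κ + 1) (ε / 8) (c / 32) (by positivity) (by positivity),
    tendsto_log_nat.eventually_ge_atTop (8 / ε), eventually_gt_atTop 1] with n hn1 hn2 hn3 hn4 hn5 hn6
  have hn0 : (0 : ℝ) < n := by exact_mod_cast (by omega : 0 < n)
  have hn1' : (1 : ℝ) ≤ n := by exact_mod_cast hn6.le
  have hlog : 0 < Real.log n := lt_of_lt_of_le (by positivity) hn5
  have hb0 : 0 < b0 κ c n := by
    unfold b0
    have := Real.rpow_pos_of_pos hlog (κ + 1)
    positivity
  set hh := n / 2 with hhd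
  set g := ⌈(1 - ε) * b0 κ c n⌉₊ with hg
  have hgp : 0 < g := Nat.ceil_pos.2 (mul_pos (by linarith) hb0)
  have hg1 : (1 - ε) * b0 κ c n ≤ g := Nat.le_ceil _
  have hg2 : (g : ℝ) < (1 - ε) * b0 κ c n + 1 :=
    Nat.ceil_lt_add_one (mul_nonneg (by linarith) hb0.le)
  set w := (n - hh) / g with hw
  have hwn : hh + w * g ≤ n := by
    have : w * g ≤ n - hh := Nat.div_mul_le_self _ _
    omega
  -- the event
  have hev : ∑ T ∈ (range n).powerset.filter
      (fun T : Finset ℕ => (mx (T : Set ℕ) n : ℝ) < (1 - ε) * b0 κ c n), bern p (range n) T ≤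
      PH p hh g w n := by
    unfold PH
    rw [Finset.sum_filter]
    refine Finset.sum_le_sum fun T _ => ?_
    have hb := bern_nonneg hp (range n) T
    by_cases h1 : (mx (T : Set ℕ) n : ℝ) < (1 - ε) * b0 κ c n
    · have h2 : AllHit hh g w T := by
        intro i hi
        by_contra hc2
        push Not at hc2
        have h3 : HasRun (T : Set ℕ) n g := by
          refine ⟨hh + i * g, ?_, fun j hj1 hj2 hj3 => ?_⟩
          · have h4 : (i + 1) * g ≤ w * g := Nat.mul_le_mul_right g hi
            have h5 : (i + 1) * g = i * g + g := by ring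
            omega
          · have h4 := hc2 j (by exact_mod_cast hj3) hj1
            have h5 : (i + 1) * g = i * g + g := by ring
            omega
        have h4 := le_mx_iff.2 h3
        have h5 : (g : ℝ) ≤ (mx (T : Set ℕ) n : ℝ) := by exact_mod_cast h4
        linarith
      rw [if_pos h1, if_pos h2, mul_one]
    · rw [if_neg h1]
      split_ifs <;> linarith
  refine hev.trans ?_
  rw [PH_marg p hh g w hwn]
  refine (PH_le hp h.anti hh g w).trans ?_
  -- the probability of an empty window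
  set u := p hh with hu
  have hu0 : 0 < u := h.pos hh
  have hη1 : η < 1 := by rw [hη]; linarith
  have hu1 : 0 < 1 - u := by linarith
  have hq : (n : ℝ) ^ (-(1 - ε / 2)) ≤ (1 - u) ^ g := by
    have h1 : -(u / (1 - u)) ≤ Real.log (1 - u) := by
      have h2 := Real.one_sub_inv_le_log_of_pos hu1
      have h3 : 1 - (1 - u)⁻¹ = -(u / (1 - u)) := by
        field_simp
        ring
      linarith
    have h2 : u / (1 - u) ≤ (1 + η) * u := by
      rw [div_le_iff₀ hu1]
      have h3 : u * (1 + η) ≤ (η / 2) * 2 :=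
        mul_le_mul hn1.le (by linarith) (by linarith) (by positivity)
      have h4 : u * 1 ≤ u * ((1 + η) * (1 - u)) := mul_le_mul_of_nonneg_left (by linarith) hu0.le
      linarith
    have h3 : (g : ℝ) * ((1 + η) * u) ≤ (1 - ε / 2) * Real.log n := by
      have h4 : u * b0 κ c n ≤ (1 + η) * Real.log n := by
        rwa [div_le_iff₀ hlog] at hn2
      have h5 : (g : ℝ) * u ≤ (1 - ε) * ((1 + η) * Real.log n) + 1 := by
        calc (g : ℝ) * u ≤ ((1 - ε) * b0 κ c n + 1) * u := by gcongr
          _ = (1 - ε) * (u * b0 κ c n) + u := by ring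
          _ ≤ (1 - ε) * ((1 + η) * Real.log n) + 1 := by
              have h6 : (1 - ε) * (u * b0 κ c n) ≤ (1 - ε) * ((1 + η) * Real.log n) :=
                mul_le_mul_of_nonneg_left h4 (by linarith)
              linarith [h.lt_one hh]
      have h6 : (g : ℝ) * ((1 + η) * u) ≤ (1 + η) * ((1 - ε) * ((1 + η) * Real.log n) + 1) := by
        calc (g : ℝ) * ((1 + η) * u) = (1 + η) * (g * u) := by ring
          _ ≤ _ := by gcongr
      have h7 : (1 + η) * (1 - ε) * (1 + η) ≤ 1 - 3 / 4 * ε := by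
        rw [hη]
        nlinarith [mul_pos hε hε, mul_pos (mul_pos hε hε) hε]
      have h8 : 2 ≤ ε / 4 * Real.log n := by
        rw [div_le_iff₀ hε] at hn5
        linarith
      have h9 : (1 + η) * (1 - ε) * (1 + η) * Real.log n ≤ (1 - 3 / 4 * ε) * Real.log n :=
        mul_le_mul_of_nonneg_right h7 hlog.le
      nlinarith
    calc (n : ℝ) ^ (-(1 - ε / 2)) = Real.exp (-((1 - ε / 2) * Real.log n)) := by
          rw [Real.rpow_def_of_pos hn0]
          congr 1
          ring
      _ ≤ Real.exp (g * Real.log (1 - u)) := by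
          apply Real.exp_le_exp.2
          have h4 : (g : ℝ) * (-((1 + η) * u)) ≤ g * Real.log (1 - u) :=
            mul_le_mul_of_nonneg_left (by linarith) (by positivity)
          linarith
      _ = (1 - u) ^ g := by
          rw [Real.exp_nat_mul, Real.exp_log hu1]
  -- the number of windows
  have hgn : (g : ℝ) ≤ (n : ℝ) ^ (ε / 8) / 16 := by
    have h1 : b0 κ c n ≤ (n : ℝ) ^ (ε / 8) / 32 := by
      unfold b0
      rw [div_le_iff₀ hc]
      calc Real.log n ^ (κ + 1) ≤ c / 32 * (n : ℝ) ^ (ε / 8) := hn4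
        _ = _ := by ring
    have h2 : (1 - ε) * b0 κ c n ≤ b0 κ c n := by nlinarith
    linarith
  have hwl : (n : ℝ) ^ (1 - ε / 8) ≤ w := by
    have h1 : n - hh < (w + 1) * g := by
      have := Nat.lt_div_mul_add (a := n - hh) hgp
      rw [← hw] at this
      linarith
    have h2 : (n : ℝ) / 2 ≤ ((w : ℝ) + 1) * g := by
      have h3 : n ≤ 2 * ((w + 1) * g) := by omega
      have h4 : (n : ℝ) ≤ 2 * (((w : ℝ) + 1) * g) := by exact_mod_cast h3
      linarith
    have h3 : (n : ℝ) / 2 ≤ ((w : ℝ) + 1) * ((n : ℝ) ^ (ε / 8) / 16) := h2.trans (by gcongr)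
    have h4 : (n : ℝ) ^ (1 - ε / 8) * (n : ℝ) ^ (ε / 8) = n := by
      rw [← Real.rpow_add hn0]
      norm_num
    have h5 : 0 < (n : ℝ) ^ (ε / 8) := Real.rpow_pos_of_pos hn0 _
    have h6 : 8 * (n : ℝ) ^ (1 - ε / 8) ≤ (w : ℝ) + 1 := by
      have h7 : (8 * (n : ℝ) ^ (1 - ε / 8)) * (n : ℝ) ^ (ε / 8) ≤ ((w : ℝ) + 1) * (n : ℝ) ^ (ε / 8) := by
        have : (8 * (n : ℝ) ^ (1 - ε / 8)) * (n : ℝ) ^ (ε / 8) = 8 * n := by rw [mul_assoc, h4]
        rw [this]
        linarith
      exact le_of_mul_le_mul_right h7 h5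
    have h7 : 1 ≤ (n : ℝ) ^ (1 - ε / 8) := Real.one_le_rpow hn1' (by linarith)
    linarith
  have hq0 : 0 < (1 - u) ^ g := pow_pos hu1 g
  have hq1 : (1 - u) ^ g ≤ 1 := pow_le_one₀ hu1.le (by linarith)
  calc (1 - (1 - u) ^ g) ^ w ≤ Real.exp (-(1 - u) ^ g) ^ w := by
        refine pow_le_pow_left₀ (by linarith) ?_ w
        linarith [Real.add_one_le_exp (-(1 - u) ^ g)]
    _ = Real.exp (-(w * (1 - u) ^ g)) := by
        rw [← Real.exp_nat_mul]
        congr 1
        ring
    _ ≤ Real.exp (-(n : ℝ) ^ (ε / 4)) := by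
        apply Real.exp_le_exp.2
        apply neg_le_neg
        calc (n : ℝ) ^ (ε / 4) ≤ (n : ℝ) ^ (1 - ε / 8 + -(1 - ε / 2)) :=
              Real.rpow_le_rpow_of_exponent_le hn1' (by linarith)
          _ = (n : ℝ) ^ (1 - ε / 8) * (n : ℝ) ^ (-(1 - ε / 2)) := Real.rpow_add hn0 _ _
          _ ≤ w * (1 - u) ^ g := mul_le_mul hwl hq (by positivity) (by positivity)

end Pool.Agent.Q237.RC
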