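import Pool.Agent.Q237.RC.ELE
import Pool.Agent.Q237.RC.LOWP

/-!
Job RC-CHR (project RC of helper120): large deviations of the number of record gaps.
-/

set_option autoImplicit false

namespace Pool.Agent.Q237.RC

open Finset MeasureTheory Filter Pool.Agent.Q120.RC Pool.Agent.Q120.ME
open scoped Topology

/-! ### the exponential supermartingale -/

theorem recb_eq (b : ℕ → ℝ) (S : Set ℕ) (x : ℕ) (P : ℕ → Prop) {inst : DecidablePred P}
    (h : ∀ n < x, (P n ↔ (n ∈ S ∧ up S n ∧ (mx S n : ℝ) ≤ b n))) :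
    (@Finset.filter ℕ P inst (range x)).card = recb b S x := by
  classical
  unfold recb
  congr 1
  ext n
  rw [Finset.mem_filter, Finset.mem_filter]
  exact and_congr_right fun hn => h n (mem_range.1 hn)

theorem recS_eq' (S : Set ℕ) (x : ℕ) (P : ℕ → Prop) {inst : DecidablePred P}
    (h : ∀ n < x, (P n ↔ (n ∈ S ∧ up S n))) :
    (@Finset.filter ℕ P inst (range x)).card = recS S x := by
  classical
  unfold recS
  congr 1
  ext n
  rw [Finset.mem_filter, Finset.mem_filter]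
  exact and_congr_right fun hn => h n (mem_range.1 hn)

theorem incb_eq (p b : ℕ → ℝ) (S : Set ℕ) (x : ℕ) (P : ℕ → Prop) {inst : DecidablePred P}
    (h : ∀ n < x, (P n ↔ (up S n ∧ (mx S n : ℝ) ≤ b n))) :
    ∑ n ∈ @Finset.filter ℕ P inst (range x), p n = incb p b S x := by
  classical
  unfold incb
  refine Finset.sum_congr ?_ fun _ _ => rfl
  ext n
  rw [Finset.mem_filter, Finset.mem_filter]
  exact and_congr_right fun hn => h n (mem_range.1 hn)

theorem inc_eq (p : ℕ → ℝ) (S : Set ℕ) (x : ℕ) (P : ℕ → Prop) {inst : DecidablePred P}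
    (h : ∀ n < x, (P n ↔ up S n)) :
    ∑ n ∈ @Finset.filter ℕ P inst (range x), p n = inc p S x := by
  classical
  unfold inc
  refine Finset.sum_congr ?_ fun _ _ => rfl
  ext n
  rw [Finset.mem_filter, Finset.mem_filter]
  exact and_congr_right fun hn => h n (mem_range.1 hn)

theorem sup_b (hSUP : J_SUP) {p : ℕ → ℝ} (hp : ∀ n, 0 ≤ p n ∧ p n ≤ 1) (b : ℕ → ℝ) (s : ℝ)
    (x : ℕ) : ∑ T ∈ (range x).powerset, bern p (range x) T *
      Real.exp (s * recb b (T : Set ℕ) x - (Real.exp s - 1) * incb p b (T : Set ℕ) x) ≤ 1 := by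
  have h := hSUP (fun n _ => p n) (fun n _ => hp n)
    (fun n T => up (T : Set ℕ) n ∧ (mx (T : Set ℕ) n : ℝ) ≤ b n) s x
  refine le_trans (le_of_eq (Finset.sum_congr rfl fun T _ => ?_)) h
  rw [recb_eq b (T : Set ℕ) x
    (fun n => n ∈ T ∧ (up (pre T n : Set ℕ) n ∧ (mx (pre T n : Set ℕ) n : ℝ) ≤ b n))
    (fun n _ => by rw [up_pre, mx_pre, Finset.mem_coe]),
    incb_eq p b (T : Set ℕ) x
    (fun n => (up (pre T n : Set ℕ) n ∧ (mx (pre T n : Set ℕ) n : ℝ) ≤ b n))
    (fun n _ => by rw [up_pre, mx_pre]), seqlaw_const]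

theorem sup_S (hSUP : J_SUP) {p : ℕ → ℝ} (hp : ∀ n, 0 ≤ p n ∧ p n ≤ 1) (s : ℝ)
    (x : ℕ) : ∑ T ∈ (range x).powerset, bern p (range x) T *
      Real.exp (s * recS (T : Set ℕ) x - (Real.exp s - 1) * inc p (T : Set ℕ) x) ≤ 1 := by
  have h := hSUP (fun n _ => p n) (fun n _ => hp n)
    (fun n T => up (T : Set ℕ) n) s x
  refine le_trans (le_of_eq (Finset.sum_congr rfl fun T _ => ?_)) h
  rw [recS_eq' (T : Set ℕ) x (fun n => n ∈ T ∧ up (pre T n : Set ℕ) n)
    (fun n _ => by rw [up_pre, Finset.mem_coe]),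
    inc_eq p (T : Set ℕ) x (fun n => up (pre T n : Set ℕ) n)
    (fun n _ => by rw [up_pre]), seqlaw_const]

/-- exponential Markov inequality -/
theorem cher {F : Finset (Finset ℕ)} (m G : Finset ℕ → ℝ) (hm : ∀ T ∈ F, 0 ≤ m T) (C v : ℝ)
    (h : ∑ T ∈ F, m T * Real.exp (G T) ≤ C) (P : Finset ℕ → Prop) {inst : DecidablePred P}
    (hP : ∀ T ∈ F, P T → v ≤ G T) : ∑ T ∈ @Finset.filter _ P inst F, m T ≤ C * Real.exp (-v) := by
  calc ∑ T ∈ @Finset.filter _ P inst F, m T ≤
        ∑ T ∈ @Finset.filter _ P inst F, m T * Real.exp (G T) * Real.exp (-v) := by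
        refine Finset.sum_le_sum fun T hT => ?_
        rw [Finset.mem_filter] at hT
        rw [mul_assoc, ← Real.exp_add]
        have h1 : 1 ≤ Real.exp (G T + -v) := Real.one_le_exp (by linarith [hP T hT.1 hT.2])
        exact le_mul_of_one_le_right (hm T hT.1) h1
    _ ≤ ∑ T ∈ F, m T * Real.exp (G T) * Real.exp (-v) :=
        Finset.sum_le_sum_of_subset_of_nonneg (Finset.filter_subset _ _) fun T hT _ =>
          mul_nonneg (mul_nonneg (hm T hT) (Real.exp_nonneg _)) (Real.exp_nonneg _)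
    _ = (∑ T ∈ F, m T * Real.exp (G T)) * Real.exp (-v) := by rw [Finset.sum_mul]
    _ ≤ C * Real.exp (-v) := mul_le_mul_of_nonneg_right h (Real.exp_nonneg _)

theorem ev_small (C : ℝ) {a θ : ℝ} (hθ : θ < a) : ∀ᶠ x : ℕ in atTop,
    C * Real.exp (-(a * Real.log x)) ≤ 1 / 4 * Real.exp (-(θ * Real.log x)) := by
  have h1 : Tendsto (fun x : ℕ => C * Real.exp (-((a - θ) * Real.log x))) atTop (𝓝 (C * 0)) := by
    refine Tendsto.const_mul C (Real.tendsto_exp_neg_atTop_nhds_zero.comp ?_)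
    exact tendsto_log_nat.const_mul_atTop (by linarith)
  rw [mul_zero] at h1
  filter_upwards [h1.eventually_le_const (show (0 : ℝ) < 1 / 4 by norm_num)] with x hx
  calc C * Real.exp (-(a * Real.log x)) =
        C * Real.exp (-((a - θ) * Real.log x)) * Real.exp (-(θ * Real.log x)) := by
        rw [mul_assoc, ← Real.exp_add]
        congr 2
        ring
    _ ≤ _ := mul_le_mul_of_nonneg_right hx (Real.exp_nonneg _)

theorem b0_nonneg {κ c : ℝ} (hc : 0 < c) (n : ℕ) : 0 ≤ b0 κ c n := by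
  unfold b0
  have := Real.rpow_nonneg (Real.log_natCast_nonneg n) (κ + 1)
  positivity

theorem b0_mono {κ c : ℝ} (hκ : 0 < κ) (hc : 0 < c) : Monotone (b0 κ c) := by
  intro m n hmn
  unfold b0
  have h1 : Real.log m ≤ Real.log n := by
    rcases Nat.eq_zero_or_pos m with h | h
    · rw [h, Nat.cast_zero, Real.log_zero]
      exact Real.log_natCast_nonneg n
    · exact Real.log_le_log (by exact_mod_cast h) (by exact_mod_cast hmn)
  have h2 := Real.rpow_le_rpow (Real.log_natCast_nonneg m) h1 (by linarith : 0 ≤ κ + 1)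
  gcongr

theorem b0_zero {κ c : ℝ} (hκ : 0 < κ) : b0 κ c 0 = 0 := by
  unfold b0
  rw [Nat.cast_zero, Real.log_zero, Real.zero_rpow (by linarith), zero_div]

/-- the sum in `J_ASY` -/
noncomputable def SS (κ c : ℝ) (p : ℕ → ℝ) (x : ℕ) : ℝ :=
  ∑ n ∈ Ico 1 x, p n * (b0 κ c n - b0 κ c (n - 1))

theorem sum_scale (κ c a : ℝ) (p : ℕ → ℝ) (s : Finset ℕ) :
    ∑ n ∈ s, p n * (a * b0 κ c n - a * b0 κ c (n - 1)) =
      a * ∑ n ∈ s, p n * (b0 κ c n - b0 κ c (n - 1)) := by
  rw [Finset.mul_sum]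
  exact Finset.sum_congr rfl fun n _ => by ring

open Classical in
/-- the longest run is not short at all times -/
theorem all_times {κ c : ℝ} {p : ℕ → ℝ} (hκ : 0 < κ) (hc : 0 < c) (h : Mod κ c p) {η : ℝ}
    (hη : 0 < η) (hη1 : η < 1) : ∀ᶠ x : ℕ in atTop,
    ∑ T ∈ (range x).powerset.filter (fun T : Finset ℕ => ∃ n ∈ Ico ⌈(x : ℝ) ^ η⌉₊ x,
      (mx (T : Set ℕ) n : ℝ) < (1 - η) * b0 κ c n), bern p (range x) T ≤
      Real.exp (-(1 * Real.log x)) := by
  have hp : ∀ n, 0 ≤ p n ∧ p n ≤ 1 := fun n => ⟨(h.pos n).le, (h.lt_one n).le⟩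
  obtain ⟨θ, hθ, hlow⟩ := t_LOWP κ c p hκ hc h η hη hη1
  have hN : Tendsto (fun x : ℕ => ⌈(x : ℝ) ^ η⌉₊) atTop atTop :=
    tendsto_nat_ceil_atTop.comp ((tendsto_rpow_atTop hη).comp tendsto_natCast_atTop_atTop)
  obtain ⟨N₁, hN₁⟩ := eventually_atTop.1 hlow
  filter_upwards [hN.eventually_ge_atTop N₁, log_pow_le 1 (η * θ) (1 / 2) (by positivity)
    (by norm_num), eventually_ge_atTop 1] with x hx1 hx2 hx3
  set N := ⌈(x : ℝ) ^ η⌉₊ with hNd
  have hx0 : (0 : ℝ) < x := by exact_mod_cast hx3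
  have hstep : ∀ n ∈ Ico N x, ∑ T ∈ (range x).powerset, bern p (range x) T *
      (if (mx (T : Set ℕ) n : ℝ) < (1 - η) * b0 κ c n then 1 else 0) ≤
      Real.exp (-(x : ℝ) ^ (η * θ)) := by
    intro n hn
    rw [mem_Ico] at hn
    rw [bern_marg p (fun T : Finset ℕ =>
      (if (mx (T : Set ℕ) n : ℝ) < (1 - η) * b0 κ c n then 1 else 0)) hn.2.le (by
        intro T m hm
        have h1 : mx ((insert m T : Finset ℕ) : Set ℕ) n = mx (T : Set ℕ) n := by
          refine mx_congr fun j hj => ?_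
          rw [Finset.mem_coe, Finset.mem_coe, mem_insert]
          exact or_iff_right (by omega)
        simp only [h1])]
    have h2 := hN₁ n (hx1.trans hn.1)
    rw [Finset.sum_filter] at h2
    calc _ = ∑ T ∈ (range n).powerset,
          (if (mx (T : Set ℕ) n : ℝ) < (1 - η) * b0 κ c n then bern p (range n) T else 0) := by
          refine Finset.sum_congr rfl fun T _ => ?_
          rw [mul_ite, mul_one, mul_zero]
      _ ≤ Real.exp (-(n : ℝ) ^ θ) := h2
      _ ≤ Real.exp (-(x : ℝ) ^ (η * θ)) := by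
          apply Real.exp_le_exp.2
          apply neg_le_neg
          have h3 : (x : ℝ) ^ η ≤ n := by
            have h4 := Nat.le_ceil ((x : ℝ) ^ η)
            have h5 : ((⌈(x : ℝ) ^ η⌉₊ : ℕ) : ℝ) ≤ n := by exact_mod_cast hn.1
            linarith
          rw [Real.rpow_mul hx0.le]
          exact Real.rpow_le_rpow (by positivity) h3 hθ.le
  calc ∑ T ∈ (range x).powerset.filter (fun T : Finset ℕ => ∃ n ∈ Ico N x,
        (mx (T : Set ℕ) n : ℝ) < (1 - η) * b0 κ c n), bern p (range x) T ≤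
      ∑ T ∈ (range x).powerset, ∑ n ∈ Ico N x, bern p (range x) T *
        (if (mx (T : Set ℕ) n : ℝ) < (1 - η) * b0 κ c n then 1 else 0) := by
        rw [Finset.sum_filter]
        refine Finset.sum_le_sum fun T _ => ?_
        have hb := bern_nonneg hp (range x) T
        have hnn : ∀ n ∈ Ico N x, 0 ≤ bern p (range x) T *
            (if (mx (T : Set ℕ) n : ℝ) < (1 - η) * b0 κ c n then 1 else 0) := by
          intro n _
          split_ifs <;> simp [hb]
        split_ifs with hex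
        · obtain ⟨n, hn, hn2⟩ := hex
          refine le_trans ?_ (Finset.single_le_sum hnn hn)
          rw [if_pos hn2, mul_one]
        · exact Finset.sum_nonneg hnn
    _ = ∑ n ∈ Ico N x, ∑ T ∈ (range x).powerset, bern p (range x) T *
        (if (mx (T : Set ℕ) n : ℝ) < (1 - η) * b0 κ c n then 1 else 0) := Finset.sum_comm
    _ ≤ ∑ _n ∈ Ico N x, Real.exp (-(x : ℝ) ^ (η * θ)) := Finset.sum_le_sum hstep
    _ ≤ x * Real.exp (-(x : ℝ) ^ (η * θ)) := by
        rw [Finset.sum_const, nsmul_eq_mul, Nat.card_Ico]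
        refine mul_le_mul_of_nonneg_right ?_ (Real.exp_nonneg _)
        exact_mod_cast Nat.sub_le x N
    _ = Real.exp (Real.log x + -(x : ℝ) ^ (η * θ)) := by
        rw [Real.exp_add, Real.exp_log hx0]
    _ ≤ Real.exp (-(1 * Real.log x)) := by
        apply Real.exp_le_exp.2
        rw [Real.rpow_one] at hx2
        linarith

open Classical in
/-- the theorem for small deviations -/
theorem chr_small (hSUP : J_SUP) (hABU : J_ABU) (hABL : J_ABL) (hASY : J_ASY) {κ c : ℝ}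
    {p : ℕ → ℝ} (hκ : 0 < κ) (hc : 0 < c) (h : Mod κ c p) {ε : ℝ} (hε : 0 < ε) (hε1 : ε ≤ 1) :
    ∃ θ : ℝ, 0 < θ ∧ ∀ᶠ x : ℕ in atTop, ∑ T ∈ (range x).powerset.filter
      (fun T : Finset ℕ => ε * Real.log x < |(recS (T : Set ℕ) x : ℝ) - (κ + 1) * Real.log x|),
      bern p (range x) T ≤ Real.exp (-(θ * Real.log x)) := by
  have hp : ∀ n, 0 ≤ p n ∧ p n ≤ 1 := fun n => ⟨(h.pos n).le, (h.lt_one n).le⟩
  set K : ℝ := κ + 1 with hK
  have hK1 : 1 < K := by rw [hK]; linarith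
  -- the parameters
  set η : ℝ := ε / (16 * (K + 1)) with hη
  have hη0 : 0 < η := by positivity
  have hηK : η * (K + 1) = ε / 16 := by
    rw [hη]
    field_simp
  have hη1 : η ≤ 1 / 16 := by nlinarith
  set s : ℝ := ε / (8 * (K + 1)) with hs
  have hs0 : 0 < s := by positivity
  have hsK : s * (K + 1) = ε / 8 := by
    rw [hs]
    field_simp
  have hs1 : s ≤ 1 := by nlinarith
  have hes : Real.exp s - 1 ≤ s + s ^ 2 := by
    have := Real.abs_exp_sub_one_sub_id_le (x := s) (by rw [abs_of_pos hs0]; exact hs1)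
    have := (abs_le.1 this).2
    linarith
  have hes0 : 0 ≤ Real.exp s - 1 := by linarith [Real.add_one_le_exp s]
  have hem : s - s ^ 2 ≤ 1 - Real.exp (-s) := by
    have := Real.abs_exp_sub_one_sub_id_le (x := -s) (by rw [abs_neg, abs_of_pos hs0]; exact hs1)
    have := (abs_le.1 this).2
    nlinarith
  have hem0 : 0 ≤ 1 - Real.exp (-s) := by
    have : Real.exp (-s) ≤ 1 := Real.exp_le_one_iff.2 (by linarith)
    linarith
  obtain ⟨CE, hCE⟩ := t_ELE κ c p hκ hc h η 1 hη0 zero_le_one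
  set θ : ℝ := s * ε / 16 with hθ
  have hθ0 : 0 < θ := by positivity
  have hθ1 : θ < ε / 2 := by nlinarith
  have hθ2 : θ < s * ε / 8 := by nlinarith [mul_pos hs0 hε]
  have hθ3 : θ < 1 := by nlinarith
  refine ⟨θ, hθ0, ?_⟩
  have hASY' := hASY κ c p hκ hc h
  have hN : Tendsto (fun x : ℕ => ⌈(x : ℝ) ^ η⌉₊ + 1) atTop atTop :=
    tendsto_atTop_mono (fun x => Nat.le_succ _) (tendsto_nat_ceil_atTop.comp
      ((tendsto_rpow_atTop hη0).comp (tendsto_natCast_atTop_atTop (R := ℝ))))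
  have eU : ∀ᶠ x : ℕ in atTop, SS κ c p x / Real.log x ≤ K + η :=
    hASY'.eventually_le_const (by linarith)
  have eL : ∀ᶠ x : ℕ in atTop, K - η ≤ SS κ c p x / Real.log x :=
    hASY'.eventually_const_le (by linarith)
  have eUN : ∀ᶠ x : ℕ in atTop, SS κ c p (⌈(x : ℝ) ^ η⌉₊ + 1) /
      Real.log ((⌈(x : ℝ) ^ η⌉₊ + 1 : ℕ) : ℝ) ≤ K + η := hN.eventually eU
  have e2 : ∀ᶠ x : ℕ in atTop, (2 : ℝ) ≤ (x : ℝ) ^ η :=
    ((tendsto_rpow_atTop hη0).comp (tendsto_natCast_atTop_atTop (R := ℝ))).eventually_ge_atTop 2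
  filter_upwards [eU, eL, eUN, e2, all_times hκ hc h hη0 (by linarith), ev_small CE hθ1,
    ev_small 1 hθ2, ev_small 1 hθ3, tendsto_log_nat.eventually_gt_atTop 0,
    eventually_ge_atTop 2] with x hx1 hx2 hx3 hx4 hx5 hx6 hx7 hx8 hx9 hx10
  have hx0 : (0 : ℝ) < x := by exact_mod_cast (by omega : 0 < x)
  have hx1' : (1 : ℝ) ≤ x := by exact_mod_cast (by omega : 1 ≤ x)
  set ℓ : ℝ := Real.log x with hℓ
  set N := ⌈(x : ℝ) ^ η⌉₊ with hNd
  rw [div_le_iff₀ hx9] at hx1
  rw [le_div_iff₀ hx9] at hx2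
  -- the size of `N`
  have hN1 : ((N + 1 : ℕ) : ℝ) ≤ (x : ℝ) ^ (2 * η) := by
    have h1 : (N : ℝ) < (x : ℝ) ^ η + 1 := Nat.ceil_lt_add_one (by positivity)
    have h2 : (x : ℝ) ^ (2 * η) = (x : ℝ) ^ η * (x : ℝ) ^ η := by
      rw [← Real.rpow_add hx0]
      congr 1
      ring
    rw [h2]
    push_cast
    nlinarith
  have hNx : N + 1 ≤ x := by
    have h1 : (x : ℝ) ^ (2 * η) ≤ (x : ℝ) ^ (1 : ℝ) :=
      Real.rpow_le_rpow_of_exponent_le hx1' (by linarith)
    rw [Real.rpow_one] at h1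
    exact_mod_cast hN1.trans h1
  have hNlog : Real.log ((N + 1 : ℕ) : ℝ) ≤ 2 * η * ℓ := by
    have h1 := Real.log_le_log (by positivity) hN1
    rwa [Real.log_rpow hx0] at h1
  have hNlog0 : 0 < Real.log ((N + 1 : ℕ) : ℝ) := by
    have h1 : 1 ≤ N := by
      have : 0 < N := Nat.ceil_pos.2 (by linarith)
      omega
    refine Real.log_pos ?_
    exact_mod_cast (by omega : 1 < N + 1)
  rw [div_le_iff₀ hNlog0] at hx3
  -- the four events
  have hm : ∀ T ∈ (range x).powerset, 0 ≤ bern p (range x) T := fun T _ => bern_nonneg hp _ _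
  have hA1 := cher (F := (range x).powerset) (bern p (range x))
    (fun T : Finset ℕ => 1 * (rece (fun n => (1 + η) * b0 κ c n) (T : Set ℕ) x : ℝ)) hm CE
    (ε / 2 * ℓ) (hCE x) (fun T : Finset ℕ =>
      ε / 2 * ℓ ≤ 1 * (rece (fun n => (1 + η) * b0 κ c n) (T : Set ℕ) x : ℝ))
    (inst := fun _ => Classical.propDecidable _) (fun T _ hT => hT)
  have hinc : ∀ T : Finset ℕ, incb p (fun n => (1 + η) * b0 κ c n) (T : Set ℕ) x ≤
      (1 + η) * ((K + η) * ℓ) := by
    intro T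
    have h1 := hABU p (fun n => (1 + η) * b0 κ c n) (fun n => (hp n).1) h.anti
      (fun m n hmn => mul_le_mul_of_nonneg_left (b0_mono hκ hc hmn) (by linarith))
      (fun n => mul_nonneg (by linarith) (b0_nonneg hc n)) (T : Set ℕ) x
    refine h1.trans ?_
    simp only [b0_zero hκ, mul_zero, zero_add]
    rw [sum_scale]
    exact mul_le_mul_of_nonneg_left hx1 (by linarith)
  have hA2 := cher (F := (range x).powerset) (bern p (range x))
    (fun T : Finset ℕ => s * (recb (fun n => (1 + η) * b0 κ c n) (T : Set ℕ) x : ℝ) -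
      (Real.exp s - 1) * incb p (fun n => (1 + η) * b0 κ c n) (T : Set ℕ) x) hm 1
    (s * ε / 8 * ℓ) (sup_b hSUP hp _ s x) (fun T : Finset ℕ =>
      (K + ε / 2) * ℓ ≤ (recb (fun n => (1 + η) * b0 κ c n) (T : Set ℕ) x : ℝ))
    (inst := fun _ => Classical.propDecidable _) (fun T _ hT => by
      have h1 : s * ((K + ε / 2) * ℓ) ≤
          s * (recb (fun n => (1 + η) * b0 κ c n) (T : Set ℕ) x : ℝ) :=
        mul_le_mul_of_nonneg_left hT hs0.le
      have h2 : (Real.exp s - 1) * incb p (fun n => (1 + η) * b0 κ c n) (T : Set ℕ) x ≤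
          (s + s ^ 2) * ((K + ε / 4) * ℓ) := by
        have h3 : (1 + η) * ((K + η) * ℓ) ≤ (K + ε / 4) * ℓ := by
          have h4 : (1 + η) * (K + η) ≤ K + ε / 4 := by nlinarith
          calc (1 + η) * ((K + η) * ℓ) = (1 + η) * (K + η) * ℓ := by ring
            _ ≤ _ := mul_le_mul_of_nonneg_right h4 hx9.le
        calc (Real.exp s - 1) * incb p (fun n => (1 + η) * b0 κ c n) (T : Set ℕ) x ≤
              (Real.exp s - 1) * ((K + ε / 4) * ℓ) :=
              mul_le_mul_of_nonneg_left ((hinc T).trans h3) hes0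
          _ ≤ _ := mul_le_mul_of_nonneg_right hes (by positivity)
      have h5 : s * ε / 8 * ℓ ≤ s * ((K + ε / 2) * ℓ) - (s + s ^ 2) * ((K + ε / 4) * ℓ) := by
        have h6 : s * (K + ε / 4) ≤ ε / 8 := by nlinarith
        have h7 : 0 ≤ (s * ℓ) * (ε / 8 - s * (K + ε / 4)) :=
          mul_nonneg (by positivity) (by linarith)
        nlinarith
      linarith)
  have hincl : ∀ T : Finset ℕ, (∀ n ∈ Ico N x, (1 - η) * b0 κ c n ≤ (mx (T : Set ℕ) n : ℝ)) →
      (K - ε / 4) * ℓ ≤ inc p (T : Set ℕ) x := by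
    intro T hT
    have h1 := hABL p (fun n => (1 - η) * b0 κ c n) (fun n => (hp n).1) h.anti
      (fun m n hmn => mul_le_mul_of_nonneg_left (b0_mono hκ hc hmn) (by linarith))
      (fun n => mul_nonneg (by linarith) (b0_nonneg hc n)) (T : Set ℕ) N x
      (fun n hn1 hn2 => hT n (mem_Ico.2 ⟨hn1, hn2⟩))
    refine le_trans ?_ h1
    rw [sum_scale]
    have h2 : SS κ c p x = SS κ c p (N + 1) +
        ∑ n ∈ Ico (N + 1) x, p n * (b0 κ c n - b0 κ c (n - 1)) := by
      unfold SS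
      rw [Finset.sum_Ico_consecutive _ (by omega) hNx]
    have h3 : SS κ c p (N + 1) ≤ (K + η) * (2 * η * ℓ) :=
      hx3.trans (mul_le_mul_of_nonneg_left hNlog (by linarith))
    have h4 : (K - η) * ℓ - (K + η) * (2 * η * ℓ) ≤
        ∑ n ∈ Ico (N + 1) x, p n * (b0 κ c n - b0 κ c (n - 1)) := by linarith
    have h5 : (K - ε / 4) ≤ (1 - η) * ((K - η) - (K + η) * (2 * η)) := by
      have e1 : (1 - η) * ((K - η) - (K + η) * (2 * η)) =
          K - η * (1 + 3 * K + 2 * η) + η * η * (1 + 2 * K + 2 * η) := by ring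
      have e2 : η * (1 + 3 * K + 2 * η) ≤ η * (3 * (K + 1)) :=
        mul_le_mul_of_nonneg_left (by linarith) hη0.le
      have e3 : η * (3 * (K + 1)) = 3 * (ε / 16) := by rw [← hηK]; ring
      have e4 : 0 ≤ η * η * (1 + 2 * K + 2 * η) := by positivity
      rw [e1]
      linarith
    calc (K - ε / 4) * ℓ ≤ (1 - η) * ((K - η) - (K + η) * (2 * η)) * ℓ :=
          mul_le_mul_of_nonneg_right h5 hx9.le
      _ = (1 - η) * ((K - η) * ℓ - (K + η) * (2 * η * ℓ)) := by ring
      _ ≤ _ := mul_le_mul_of_nonneg_left h4 (by linarith)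
  have hB2 := cher (F := (range x).powerset) (bern p (range x))
    (fun T : Finset ℕ => -s * (recS (T : Set ℕ) x : ℝ) -
      (Real.exp (-s) - 1) * inc p (T : Set ℕ) x) hm 1
    (s * ε / 8 * ℓ) (sup_S hSUP hp (-s) x) (fun T : Finset ℕ =>
      (∀ n ∈ Ico N x, (1 - η) * b0 κ c n ≤ (mx (T : Set ℕ) n : ℝ)) ∧
      (recS (T : Set ℕ) x : ℝ) ≤ (K - ε) * ℓ)
    (inst := fun _ => Classical.propDecidable _) (fun T _ hT => by
      obtain ⟨hT1, hT2⟩ := hT
      have h1 : s * (recS (T : Set ℕ) x : ℝ) ≤ s * ((K - ε) * ℓ) :=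
        mul_le_mul_of_nonneg_left hT2 hs0.le
      have h2 : (s - s ^ 2) * ((K - ε / 4) * ℓ) ≤ (1 - Real.exp (-s)) * inc p (T : Set ℕ) x := by
        have h3 : 0 ≤ (K - ε / 4) * ℓ := mul_nonneg (by linarith) hx9.le
        calc (s - s ^ 2) * ((K - ε / 4) * ℓ) ≤ (1 - Real.exp (-s)) * ((K - ε / 4) * ℓ) :=
              mul_le_mul_of_nonneg_right hem h3
          _ ≤ _ := mul_le_mul_of_nonneg_left (hincl T hT1) hem0
      have h5 : s * ε / 8 * ℓ ≤ (s - s ^ 2) * ((K - ε / 4) * ℓ) - s * ((K - ε) * ℓ) := by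
        have h6 : s * (K - ε / 4) ≤ ε / 8 := by nlinarith
        have h7 : 0 ≤ (s * ℓ) * (ε / 8 - s * (K - ε / 4)) :=
          mul_nonneg (by positivity) (by linarith)
        have h8 : 0 ≤ s * ℓ * ε := by positivity
        nlinarith
      linarith)
  -- the union
  have hunion : ∑ T ∈ (range x).powerset.filter (fun T : Finset ℕ =>
      ε * ℓ < |(recS (T : Set ℕ) x : ℝ) - K * ℓ|), bern p (range x) T ≤
      CE * Real.exp (-(ε / 2 * ℓ)) + 1 * Real.exp (-(s * ε / 8 * ℓ)) +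
        1 * Real.exp (-(1 * ℓ)) + 1 * Real.exp (-(s * ε / 8 * ℓ)) := by
    refine le_trans ?_ (add_le_add (add_le_add (add_le_add hA1 hA2)
      (hx5.trans_eq (one_mul _).symm)) hB2)
    rw [Finset.sum_filter, Finset.sum_filter, Finset.sum_filter, Finset.sum_filter,
      Finset.sum_filter, ← Finset.sum_add_distrib, ← Finset.sum_add_distrib,
      ← Finset.sum_add_distrib]
    refine Finset.sum_le_sum fun T hT => ?_
    have hb := hm T hT
    have hite : ∀ (P : Prop) (inst : Decidable P), 0 ≤ @ite ℝ P inst (bern p (range x) T) 0 := by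
      intro P inst
      split_ifs
      · exact hb
      · exact le_rfl
    by_cases hev : ε * ℓ < |(recS (T : Set ℕ) x : ℝ) - K * ℓ|
    · rw [if_pos hev]
      have hrec := recS_eq (fun n => (1 + η) * b0 κ c n) (T : Set ℕ) x
      have hrec' : (recS (T : Set ℕ) x : ℝ) =
          (recb (fun n => (1 + η) * b0 κ c n) (T : Set ℕ) x : ℝ) +
          (rece (fun n => (1 + η) * b0 κ c n) (T : Set ℕ) x : ℝ) := by
        exact_mod_cast hrec
      by_cases h1 : ε / 2 * ℓ ≤ 1 * (rece (fun n => (1 + η) * b0 κ c n) (T : Set ℕ) x : ℝ)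
      · rw [if_pos h1]
        exact le_add_of_le_of_nonneg (le_add_of_le_of_nonneg (le_add_of_le_of_nonneg le_rfl
          (hite _ _)) (hite _ _)) (hite _ _)
      · rw [if_neg h1]
        by_cases h2 : (K + ε / 2) * ℓ ≤
            (recb (fun n => (1 + η) * b0 κ c n) (T : Set ℕ) x : ℝ)
        · rw [if_pos h2]
          exact le_add_of_le_of_nonneg (le_add_of_le_of_nonneg (by rw [zero_add])
            (hite _ _)) (hite _ _)
        · rw [if_neg h2]
          have h3 : (recS (T : Set ℕ) x : ℝ) ≤ (K - ε) * ℓ := by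
            push Not at h1 h2
            have h4 : (recS (T : Set ℕ) x : ℝ) - K * ℓ < ε * ℓ := by
              rw [hrec']
              linarith
            rcases lt_abs.1 hev with h5 | h5
            · linarith
            · linarith
          by_cases h4 : ∃ n ∈ Ico N x, (mx (T : Set ℕ) n : ℝ) < (1 - η) * b0 κ c n
          · rw [if_pos h4]
            exact le_add_of_le_of_nonneg (by rw [zero_add, zero_add]) (hite _ _)
          · rw [if_neg h4]
            push Not at h4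
            rw [if_pos ⟨h4, h3⟩]
            linarith
    · rw [if_neg hev]
      exact add_nonneg (add_nonneg (add_nonneg (hite _ _) (hite _ _)) (hite _ _)) (hite _ _)
  refine hunion.trans ?_
  linarith

open Classical in
theorem t_CHR (hSUP : J_SUP) (hABU : J_ABU) (hABL : J_ABL) (hASY : J_ASY) : J_CHR := by
  intro κ c p hκ hc h ε hε
  have hp : ∀ n, 0 ≤ p n ∧ p n ≤ 1 := fun n => ⟨(h.pos n).le, (h.lt_one n).le⟩
  obtain ⟨θ, hθ, hev⟩ := chr_small hSUP hABU hABL hASY hκ hc h (ε := min ε 1)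
    (lt_min hε one_pos) (min_le_right _ _)
  refine ⟨θ, hθ, ?_⟩
  filter_upwards [hev, tendsto_log_nat.eventually_ge_atTop 0] with x hx hx0
  refine le_trans ?_ hx
  refine Finset.sum_le_sum_of_subset_of_nonneg (fun T hT => ?_) fun T _ _ => bern_nonneg hp _ _
  rw [Finset.mem_filter] at hT ⊢
  refine ⟨hT.1, lt_of_le_of_lt ?_ hT.2⟩
  exact mul_le_mul_of_nonneg_right (min_le_left _ _) hx0

end Pool.Agent.Q237.RC
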