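import Pool.Agent.Q237.RC.Tools

/-!
Job RC-ELE (project RC of helper120): exponential moment of the number of record gaps far above
the natural size.
-/

set_option autoImplicit false

namespace Pool.Agent.Q237.RC

open Finset MeasureTheory Filter Pool.Agent.Q120.RC Pool.Agent.Q120.ME
open scoped Topology

open Classical in
/-- the number of the `n ∈ T` below `x` with an empty window of length `g n` before them -/
noncomputable def NN (g : ℕ → ℕ) (x : ℕ) (T : Finset ℕ) : ℕ :=
  ((range x).filter (fun n => n ∈ T ∧ ∀ j, n - g n ≤ j → j < n → j ∉ T)).card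

theorem NN_succ (g : ℕ → ℕ) {x : ℕ} {T : Finset ℕ} (hT : T ⊆ range x) :
    NN g (x + 1) T = NN g x T := by
  classical
  unfold NN
  rw [Finset.range_add_one, Finset.filter_insert, if_neg]
  intro h
  exact absurd (mem_range.1 (hT h.1)) (lt_irrefl _)

open Classical in
theorem NN_succ_insert (g : ℕ → ℕ) {x : ℕ} {T : Finset ℕ} (hT : T ⊆ range x) :
    NN g (x + 1) (insert x T) =
      NN g x T + if ∀ j, x - g x ≤ j → j < x → j ∉ T then 1 else 0 := by
  have h1 : ∀ n, n < x → ((n ∈ insert x T ∧ ∀ j, n - g n ≤ j → j < n → j ∉ insert x T) ↔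
      (n ∈ T ∧ ∀ j, n - g n ≤ j → j < n → j ∉ T)) := by
    intro n hn
    have h2 : ∀ j, j < x → (j ∈ insert x T ↔ j ∈ T) := by
      intro j hj
      rw [mem_insert]
      exact or_iff_right (by omega)
    rw [h2 n hn]
    refine and_congr_right fun _ => ?_
    constructor
    · intro h j hj1 hj2 hj3
      exact h j hj1 hj2 ((h2 j (by omega)).2 hj3)
    · intro h j hj1 hj2 hj3
      exact h j hj1 hj2 ((h2 j (by omega)).1 hj3)
  have h3 : ((range x).filter (fun n => n ∈ insert x T ∧
      ∀ j, n - g n ≤ j → j < n → j ∉ insert x T)) =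
      (range x).filter (fun n => n ∈ T ∧ ∀ j, n - g n ≤ j → j < n → j ∉ T) :=
    filter_congr fun n hn => h1 n (mem_range.1 hn)
  have h4 : (x ∈ insert x T ∧ ∀ j, x - g x ≤ j → j < x → j ∉ insert x T) ↔
      ∀ j, x - g x ≤ j → j < x → j ∉ T := by
    constructor
    · rintro ⟨-, h⟩ j hj1 hj2 hj3
      exact h j hj1 hj2 (mem_insert_of_mem hj3)
    · intro h
      refine ⟨mem_insert_self _ _, fun j hj1 hj2 hj3 => ?_⟩
      rcases mem_insert.1 hj3 with h5 | h5
      · omega
      · exact h j hj1 hj2 h5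
  unfold NN
  rw [Finset.range_add_one, Finset.filter_insert, h3]
  by_cases h5 : ∀ j, x - g x ≤ j → j < x → j ∉ T
  · rw [if_pos (h4.2 h5), if_pos h5, card_insert_of_notMem]
    simp
  · rw [if_neg (fun h => h5 (h4.1 h)), if_neg h5, add_zero]

theorem NN_window (g : ℕ → ℕ) {x y : ℕ} (hyx : y ≤ x) {T : Finset ℕ} (hT : T ⊆ range y) :
    NN g x T = NN g y T := by
  classical
  unfold NN
  congr 1
  ext n
  simp only [mem_filter, mem_range]
  constructor
  · rintro ⟨-, h1, h2⟩
    exact ⟨mem_range.1 (hT h1), h1, h2⟩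
  · rintro ⟨h, h1, h2⟩
    exact ⟨by omega, h1, h2⟩

/-- the exponential moment -/
noncomputable def Phi (p : ℕ → ℝ) (g : ℕ → ℕ) (t : ℝ) (x : ℕ) : ℝ :=
  ∑ T ∈ (range x).powerset, bern p (range x) T * Real.exp (t * NN g x T)

theorem Phi_nonneg {p : ℕ → ℝ} (hp : ∀ n, 0 ≤ p n ∧ p n ≤ 1) (g : ℕ → ℕ) (t : ℝ) (x : ℕ) :
    0 ≤ Phi p g t x :=
  Finset.sum_nonneg fun _ _ => mul_nonneg (bern_nonneg hp _ _) (Real.exp_nonneg _)

open Classical in
theorem Phi_succ (p : ℕ → ℝ) (g : ℕ → ℕ) (t : ℝ) (x : ℕ) :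
    Phi p g t (x + 1) = Phi p g t x + (Real.exp t - 1) * p x *
      ((∏ j ∈ Ico (x - g x) x, (1 - p j)) * Phi p g t (x - g x)) := by
  have hW : ∑ T ∈ (range x).powerset, (if ∀ j, x - g x ≤ j → j < x → j ∉ T then
      bern p (range x) T * Real.exp (t * NN g x T) else 0) =
      (∏ j ∈ Ico (x - g x) x, (1 - p j)) * Phi p g t (x - g x) := by
    rw [← Finset.sum_filter]
    have h1 : (range x).powerset.filter (fun T => ∀ j, x - g x ≤ j → j < x → j ∉ T) =
        (range (x - g x)).powerset := by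
      ext T
      simp only [mem_filter, mem_powerset]
      constructor
      · rintro ⟨h1, h2⟩ j hj
        have h3 := mem_range.1 (h1 hj)
        rw [mem_range]
        by_contra h4
        exact h2 j (by omega) h3 hj
      · intro h1
        refine ⟨h1.trans (range_mono (Nat.sub_le _ _)), fun j hj1 hj2 hj3 => ?_⟩
        have := mem_range.1 (h1 hj3)
        omega
    rw [h1]
    unfold Phi
    rw [Finset.mul_sum]
    refine Finset.sum_congr rfl fun T hT => ?_
    have hT' := mem_powerset.1 hT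
    rw [bern_window p (Nat.sub_le x (g x)) hT', NN_window g (Nat.sub_le x (g x)) hT']
    ring
  rw [← hW, Finset.mul_sum]
  unfold Phi
  rw [sum_succ, ← Finset.sum_add_distrib]
  refine Finset.sum_congr rfl fun T hT => ?_
  have hT' := mem_powerset.1 hT
  rw [bern_succ p hT', bern_succ_insert, NN_succ g hT', NN_succ_insert g hT']
  split_ifs with h1
  · push_cast
    rw [mul_add, Real.exp_add, mul_one]
    ring
  · rw [add_zero]
    ring

theorem Phi_mono {p : ℕ → ℝ} (hp : ∀ n, 0 ≤ p n ∧ p n ≤ 1) (g : ℕ → ℕ) {t : ℝ} (ht : 0 ≤ t) :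
    Monotone (Phi p g t) := by
  refine monotone_nat_of_le_succ fun x => ?_
  rw [Phi_succ]
  have h1 : 0 ≤ Real.exp t - 1 := by linarith [Real.add_one_le_exp t]
  have h2 : 0 ≤ ∏ j ∈ Ico (x - g x) x, (1 - p j) :=
    Finset.prod_nonneg fun j _ => by linarith [(hp j).2]
  have h3 := Phi_nonneg hp g t (x - g x)
  have h4 := (hp x).1
  have : 0 ≤ (Real.exp t - 1) * p x * ((∏ j ∈ Ico (x - g x) x, (1 - p j)) * Phi p g t (x - g x)) := by
    positivity
  linarith

theorem Phi_le {p : ℕ → ℝ} (hp : ∀ n, 0 ≤ p n ∧ p n ≤ 1) (g : ℕ → ℕ) {t : ℝ} (ht : 0 ≤ t)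
    (x : ℕ) : Phi p g t x ≤
      Real.exp ((Real.exp t - 1) * ∑ n ∈ range x, ∏ j ∈ Ico (n - g n) n, (1 - p j)) := by
  induction x with
  | zero =>
    have : Phi p g t 0 = 1 := by
      unfold Phi NN
      simp [bern]
    rw [this]
    simp
  | succ x ih =>
    have h1 : 0 ≤ Real.exp t - 1 := by linarith [Real.add_one_le_exp t]
    set q := ∏ j ∈ Ico (x - g x) x, (1 - p j) with hq
    have h2 : 0 ≤ q := Finset.prod_nonneg fun j _ => by linarith [(hp j).2]
    have h3 := Phi_nonneg hp g t (x - g x)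
    have h4 : Phi p g t (x - g x) ≤ Phi p g t x := Phi_mono hp g ht (Nat.sub_le _ _)
    have h5 := Phi_nonneg hp g t x
    rw [Phi_succ, Finset.sum_range_succ, ← hq, mul_add, Real.exp_add]
    have h6 : (Real.exp t - 1) * p x * (q * Phi p g t (x - g x)) ≤
        (Real.exp t - 1) * q * Phi p g t x := by
      have h7 : p x * (q * Phi p g t (x - g x)) ≤ 1 * (q * Phi p g t x) := by
        refine mul_le_mul (hp x).2 (mul_le_mul_of_nonneg_left h4 h2) (by positivity) zero_le_one
      calc (Real.exp t - 1) * p x * (q * Phi p g t (x - g x)) =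
            (Real.exp t - 1) * (p x * (q * Phi p g t (x - g x))) := by ring
        _ ≤ (Real.exp t - 1) * (1 * (q * Phi p g t x)) := mul_le_mul_of_nonneg_left h7 h1
        _ = _ := by ring
    have h8 : 1 + (Real.exp t - 1) * q ≤ Real.exp ((Real.exp t - 1) * q) := by
      linarith [Real.add_one_le_exp ((Real.exp t - 1) * q)]
    calc Phi p g t x + (Real.exp t - 1) * p x * (q * Phi p g t (x - g x)) ≤
          Phi p g t x * (1 + (Real.exp t - 1) * q) := by linarith
      _ ≤ _ := mul_le_mul ih h8 (by positivity) (Real.exp_nonneg _)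

/-- the windows are rarely empty -/
theorem window_summable {κ c : ℝ} {p : ℕ → ℝ} (hκ : 0 < κ) (hc : 0 < c) (h : Mod κ c p) {ε : ℝ}
    (hε : 0 < ε) : Summable fun n : ℕ =>
      ∏ j ∈ Ico (n - ⌊(1 + ε) * b0 κ c n⌋₊) n, (1 - p j) := by
  have h1 : ∀ᶠ n : ℕ in atTop, ∏ j ∈ Ico (n - ⌊(1 + ε) * b0 κ c n⌋₊) n, (1 - p j) ≤
      Real.exp 1 * (n : ℝ) ^ (-(1 + ε / 2)) := by
    have hη : 1 - ε / (2 * (1 + ε)) < 1 := by
      have : 0 < ε / (2 * (1 + ε)) := by positivity
      linarith
    filter_upwards [(tendsto_pb0 hc h).eventually_const_le hη, log_pow_le (κ + 1) 1 (c / (1 + ε))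
      one_pos (by positivity), tendsto_log_nat.eventually_gt_atTop 0, eventually_gt_atTop 0]
      with n hn1 hn2 hn3 hn4
    have hn0 : (0 : ℝ) < n := by exact_mod_cast hn4
    have hb0 : 0 ≤ b0 κ c n := by
      unfold b0
      positivity
    set g := ⌊(1 + ε) * b0 κ c n⌋₊ with hg
    have hg1 : (g : ℝ) ≤ (1 + ε) * b0 κ c n := Nat.floor_le (by positivity)
    have hg2 : (1 + ε) * b0 κ c n < g + 1 := Nat.lt_floor_add_one _
    have hgn : g ≤ n := by
      have h2 : (1 + ε) * b0 κ c n ≤ n := by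
        unfold b0
        rw [Real.rpow_one] at hn2
        calc (1 + ε) * (Real.log n ^ (κ + 1) / c) ≤ (1 + ε) * ((c / (1 + ε) * n) / c) := by
              gcongr
          _ = n := by field_simp
      exact_mod_cast hg1.trans h2
    have hpn0 := h.pos n
    have hpn1 := h.lt_one n
    have h3 : ∏ j ∈ Ico (n - g) n, (1 - p j) ≤ (1 - p n) ^ g := by
      calc ∏ j ∈ Ico (n - g) n, (1 - p j) ≤ ∏ _j ∈ Ico (n - g) n, (1 - p n) := by
            refine Finset.prod_le_prod (fun j _ => by linarith [h.lt_one j]) fun j hj => ?_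
            have := h.anti (mem_Ico.1 hj).2.le
            linarith
        _ = (1 - p n) ^ g := by
            rw [Finset.prod_const, Nat.card_Ico, Nat.sub_sub_self hgn]
    have h4 : (1 - p n) ^ g ≤ Real.exp (-(p n * g)) := by
      calc (1 - p n) ^ g ≤ Real.exp (-p n) ^ g := by
            refine pow_le_pow_left₀ (by linarith) ?_ g
            linarith [Real.add_one_le_exp (-p n)]
        _ = Real.exp (-(p n * g)) := by
            rw [← Real.exp_nat_mul]
            congr 1
            ring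
    have h5 : (1 + ε / 2) * Real.log n - 1 ≤ p n * g := by
      have h6 : (1 - ε / (2 * (1 + ε))) * Real.log n ≤ p n * b0 κ c n := by
        rwa [le_div_iff₀ hn3] at hn1
      have h7 : (1 + ε) * ((1 - ε / (2 * (1 + ε))) * Real.log n) ≤ (1 + ε) * (p n * b0 κ c n) :=
        mul_le_mul_of_nonneg_left h6 (by linarith)
      have h8 : (1 + ε) * ((1 - ε / (2 * (1 + ε))) * Real.log n) = (1 + ε / 2) * Real.log n := by
        field_simp
        ring
      rw [h8] at h7
      have h9 : p n * ((1 + ε) * b0 κ c n) ≤ p n * (g + 1) :=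
        mul_le_mul_of_nonneg_left hg2.le hpn0.le
      nlinarith
    refine h3.trans (h4.trans ?_)
    calc Real.exp (-(p n * g)) ≤ Real.exp (1 + -(1 + ε / 2) * Real.log n) := by
          apply Real.exp_le_exp.2
          linarith
      _ = Real.exp 1 * (n : ℝ) ^ (-(1 + ε / 2)) := by
          rw [Real.exp_add, Real.rpow_def_of_pos hn0]
          congr 2
          ring
  have h2 : Summable fun n : ℕ => Real.exp 1 * (n : ℝ) ^ (-(1 + ε / 2)) := by
    refine Summable.mul_left _ (Real.summable_nat_rpow.2 ?_)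
    linarith
  refine summable_of_isBigO_nat h2 (Asymptotics.IsBigO.of_bound 1 ?_)
  filter_upwards [h1] with n hn
  rw [Real.norm_of_nonneg (Finset.prod_nonneg fun j _ => by linarith [h.lt_one j]),
    Real.norm_of_nonneg (by positivity), one_mul]
  exact hn

theorem rece_le (b : ℕ → ℝ) (S : Set ℕ) (x : ℕ) (F : Finset ℕ)
    (h : ∀ n, n < x → n ∈ S → up S n → b n < mx S n → n ∈ F) : rece b S x ≤ F.card := by
  classical
  unfold rece
  refine card_le_card fun n hn => ?_
  obtain ⟨hn1, hn2, hn3, hn4⟩ := Finset.mem_filter.1 hn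
  exact h n (mem_range.1 hn1) hn2 hn3 hn4

theorem t_ELE : J_ELE := by
  classical
  intro κ c p hκ hc h ε t hε ht
  have hp : ∀ n, 0 ≤ p n ∧ p n ≤ 1 := fun n => ⟨(h.pos n).le, (h.lt_one n).le⟩
  have hs := window_summable hκ hc h hε
  set g : ℕ → ℕ := fun n => ⌊(1 + ε) * b0 κ c n⌋₊ with hg
  refine ⟨Real.exp ((Real.exp t - 1) * ∑' n, ∏ j ∈ Ico (n - g n) n, (1 - p j)), fun x => ?_⟩
  have h1 : ∑ T ∈ (range x).powerset, bern p (range x) T *
      Real.exp (t * rece (fun n => (1 + ε) * b0 κ c n) (T : Set ℕ) x) ≤ Phi p g t x := by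
    refine Finset.sum_le_sum fun T _ => mul_le_mul_of_nonneg_left ?_ (bern_nonneg hp _ _)
    apply Real.exp_le_exp.2
    refine mul_le_mul_of_nonneg_left ?_ ht
    have h2 : rece (fun n => (1 + ε) * b0 κ c n) (T : Set ℕ) x ≤ NN g x T := by
      unfold NN
      refine rece_le _ _ _ _ fun n hn1 hn2 hn3 hn4 => ?_
      refine Finset.mem_filter.2 ⟨mem_range.2 hn1, by exact_mod_cast hn2, fun j hj1 hj2 hj3 => ?_⟩
      have h3 : g n ≤ mx (T : Set ℕ) n := by
        rcases le_or_gt 0 ((1 + ε) * b0 κ c n) with h4 | h4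
        · have h5 : (g n : ℝ) ≤ (1 + ε) * b0 κ c n := Nat.floor_le h4
          have h6 : (g n : ℝ) < (mx (T : Set ℕ) n : ℝ) := lt_of_le_of_lt h5 hn4
          exact_mod_cast h6.le
        · simp only [hg]
          rw [Nat.floor_of_nonpos h4.le]
          omega
      exact up_run hn3 j (by omega) hj2 (by exact_mod_cast hj3)
    exact_mod_cast h2
  refine h1.trans ((Phi_le hp g ht x).trans ?_)
  apply Real.exp_le_exp.2
  refine mul_le_mul_of_nonneg_left ?_ (by linarith [Real.add_one_le_exp t])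
  exact hs.sum_le_tsum _ fun n _ => Finset.prod_nonneg fun j _ => by linarith [(hp j).2]

end Pool.Agent.Q237.RC
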