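import Pool.Agent.Q120.RC.Stm

/-!
Tools for the jobs RC-ELE, RC-LOWP, RC-CHR (project RC of helper120).
-/

set_option autoImplicit false

namespace Pool.Agent.Q237.RC

open Finset MeasureTheory Filter Pool.Agent.Q120.RC Pool.Agent.Q120.ME
open scoped Topology

theorem bern_nonneg {p : ℕ → ℝ} (hp : ∀ n, 0 ≤ p n ∧ p n ≤ 1) (F T : Finset ℕ) :
    0 ≤ bern p F T := by
  unfold bern
  refine Finset.prod_nonneg fun n _ => ?_
  split_ifs
  · exact (hp n).1
  · linarith [(hp n).2]

theorem sum_succ (f : Finset ℕ → ℝ) (x : ℕ) : ∑ T ∈ (range (x + 1)).powerset, f T =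
    ∑ T ∈ (range x).powerset, (f T + f (insert x T)) := by
  rw [Finset.range_add_one, Finset.sum_powerset_insert (by simp), Finset.sum_add_distrib]

theorem bern_succ (p : ℕ → ℝ) {x : ℕ} {T : Finset ℕ} (hT : T ⊆ range x) :
    bern p (range (x + 1)) T = bern p (range x) T * (1 - p x) := by
  unfold bern
  rw [Finset.prod_range_succ, if_neg]
  intro h
  exact absurd (mem_range.1 (hT h)) (lt_irrefl _)

theorem bern_succ_insert (p : ℕ → ℝ) {x : ℕ} {T : Finset ℕ} :
    bern p (range (x + 1)) (insert x T) = bern p (range x) T * p x := by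
  unfold bern
  rw [Finset.prod_range_succ, if_pos (mem_insert_self x T)]
  congr 1
  refine Finset.prod_congr rfl fun n hn => ?_
  have h1 : n ≠ x := by
    rw [mem_range] at hn
    omega
  have h2 : n ∈ insert x T ↔ n ∈ T := by
    rw [mem_insert]
    exact or_iff_right h1
  simp only [h2]

/-- the total mass -/
theorem bern_sum (p : ℕ → ℝ) (x : ℕ) : ∑ T ∈ (range x).powerset, bern p (range x) T = 1 := by
  induction x with
  | zero => simp [bern]
  | succ x ih =>
    rw [sum_succ, ← ih]
    refine Finset.sum_congr rfl fun T hT => ?_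
    rw [bern_succ p (mem_powerset.1 hT), bern_succ_insert]
    ring

/-- the subsets of `range y` inside `range x` -/
theorem bern_window (p : ℕ → ℝ) {x y : ℕ} (hyx : y ≤ x) {T : Finset ℕ} (hT : T ⊆ range y) :
    bern p (range x) T = bern p (range y) T * ∏ j ∈ Ico y x, (1 - p j) := by
  unfold bern
  rw [← Finset.prod_range_mul_prod_Ico _ hyx]
  congr 1
  refine Finset.prod_congr rfl fun j hj => ?_
  rw [if_neg]
  intro h
  have h1 := mem_range.1 (hT h)
  have h2 := (mem_Ico.1 hj).1
  omega

/-! ### asymptotics -/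

/-- `log^r n = o(n^s)` -/
theorem log_pow_le (r s K : ℝ) (hs : 0 < s) (hK : 0 < K) :
    ∀ᶠ n : ℕ in atTop, Real.log n ^ r ≤ K * (n : ℝ) ^ s := by
  have h1 := (isLittleO_log_rpow_rpow_atTop r hs).bound hK
  have h2 := tendsto_natCast_atTop_atTop (R := ℝ) |>.eventually h1
  filter_upwards [h2, eventually_ge_atTop 1] with n hn hn1
  have h3 : 0 ≤ Real.log n := Real.log_natCast_nonneg n
  rw [Real.norm_of_nonneg (Real.rpow_nonneg h3 _), Real.norm_of_nonneg (by positivity)] at hn
  exact hn

theorem tendsto_log_nat : Tendsto (fun n : ℕ => Real.log n) atTop atTop :=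
  Real.tendsto_log_atTop.comp tendsto_natCast_atTop_atTop

/-- `p n * b0 n / log n → 1` -/
theorem tendsto_pb0 {κ c : ℝ} {p : ℕ → ℝ} (hc : 0 < c) (h : Mod κ c p) :
    Tendsto (fun n : ℕ => p n * b0 κ c n / Real.log n) atTop (𝓝 1) := by
  have h1 : Tendsto (fun n : ℕ => p n * Real.log n ^ κ / c) atTop (𝓝 (c / c)) := h.lim.div_const c
  rw [div_self hc.ne'] at h1
  refine h1.congr' ?_
  filter_upwards [tendsto_log_nat.eventually_gt_atTop 0] with n hn
  unfold b0
  rw [Real.rpow_add hn, Real.rpow_one]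
  field_simp

end Pool.Agent.Q237.RC
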